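import Mathlib
import Pool.Agent.RD.Defs
import Pool.Agent.PKQ.All

/-!
Pink's conclusion, with the expected dimension for all codimensions, for all but a power saving
proportion of the multisections of elliptic schemes with prescribed supports: multisections, their
products and their fibre products.

The base `T` is the set of points `(p, s)` of affine space over `AlgebraicClosure K` where every
`s_j` satisfies a monic equation over `p` (Noether coordinates); the equation of `s_j` only uses the
coordinates `p_c` with `c ∈ W j`. There are `g_k` points on the `k`-th elliptic scheme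
`y ^ 2 = x ^ 3 + A_k x + B_k`, `k < m`. The abscissa `f_i` of the point number `i = (k, i')` only uses
the coordinates allowed for `i`: the `p_c` with `c ∈ V i` and the `s_j` with `W j ⊆ V i`; and `A_k`,
`B_k` only use coordinates which are allowed for all the points of the block `k`. It is
`f_i = F_i + ∑ (i, α) ∈ I, c_(i,α) (p, s) ^ α`, of degree at most `D i`, where the set `I` contains
`(i, 1)` and `(i, p_c ^ (D i))`, `c ∈ V i`, and `c_u = (∑ l, a_(u,l) ω_l) / β`, `ω` a basis of `K`
over `ℚ`.

With all the `V i` equal to the set of all coordinates these are the multisections of the whole base;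
with `V i` constant on blocks they are products `X_1 × X_2 × ...` of multisections over
`S_1 × S_2 × ...` (for instance `C_1 × C_2` in a power of one elliptic curve), and fibre products
when the `V i` have common elements.

A pair `(β, a)` is bad if for SOME `A, B, F` as above (degrees at most `2 w_k`, `3 w_k`, `D i`,
coefficients integral over `ℤ[1/Δ]`), some set `Q` of coordinates and a dense open set `G ≠ 0` of
values `z` there is a point `(p, s)` of the base with `p_j = z_j` for `j ∈ Q` over which the points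
satisfy `d + 1 - |Q|` independent relations. If a subvariety of dimension `q` of the multisection
consists of points which satisfy `d + 1 - q` independent relations then the pair is bad (`Q` a set
of `q` coordinates for which the projection of the subvariety is dominant).
-/

namespace Pool.Agent.Results.MP_28d749_ag.AlmostAllProducts

open MvPolynomial RD

theorem result (K : Type) [Field K] [NumberField K] [DecidableEq (AlgebraicClosure K)]
    (m : ℕ) (g : Fin m → ℕ) (d n : ℕ) (w : Fin m → ℕ) (D : (Σ k, Fin (g k)) → ℕ)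
    (hD : ∀ i, w i.1 ≤ D i)
    (hK : ∀ e : Fin m → ℕ, (∀ k, e k ≤ g k) → ∑ k, e k ≤ d + 1 →
      2 * ∑ k, e k * (g k - e k) < Module.finrank ℚ K)
    (ω : Module.Basis (Fin (Module.finrank ℚ K)) ℚ K)
    (V : (Σ k, Fin (g k)) → Finset (Fin d)) (W : Fin n → Finset (Fin d)) (ρ : Fin n → ℕ)
    (b : Fin n → ℕ → MvPolynomial (Fin d) (AlgebraicClosure K))
    (I : Finset ((Σ k, Fin (g k)) × ((Fin d ⊕ Fin n) →₀ ℕ)))
    (hI : ∀ i, (i, 0) ∈ I ∧ ∀ c ∈ V i, (i, Finsupp.single (Sum.inl c) (D i)) ∈ I)
    (hIs : ∀ u ∈ I, u.2.degree ≤ D u.1 ∧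
      ∀ t ∈ u.2.support, Sum.elim (fun c => c ∈ V u.1) (fun j => W j ⊆ V u.1) t)
    (hb : ∀ j l, l < ρ j → (b j l).totalDegree ≤ ρ j - l ∧ (b j l).vars ⊆ W j)
    (Δ : ℕ) (hΔ : 0 < Δ) (ε : ℝ) (hε : 0 < ε) :
    ∃ C : ℝ, ∀ H : ℕ, 1 ≤ H →
      (Nat.card {x : ℕ × ({u // u ∈ I} → Fin (Module.finrank ℚ K) → ℤ) //
        1 ≤ x.1 ∧ x.1 ≤ H ∧ (∀ u l, |x.2 u l| ≤ (H : ℤ)) ∧
        ∃ (A B : Fin m → MvPolynomial (Fin d ⊕ Fin n) (AlgebraicClosure K))
          (F : (Σ k, Fin (g k)) → MvPolynomial (Fin d ⊕ Fin n) (AlgebraicClosure K)),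
          (∀ k, (A k).totalDegree ≤ 2 * w k ∧ (B k).totalDegree ≤ 3 * w k) ∧
          (∀ i, (F i).totalDegree ≤ D i) ∧
          (∀ i t, t ∈ (A i.1).vars ∪ (B i.1).vars ∪ (F i).vars →
            Sum.elim (fun c => c ∈ V i) (fun j => W j ⊆ V i) t) ∧
          (∀ t, (∀ k, ∃ j : ℕ, IsIntegral ℤ ((Δ : AlgebraicClosure K) ^ j * (A k).coeff t)) ∧
            (∀ k, ∃ j : ℕ, IsIntegral ℤ ((Δ : AlgebraicClosure K) ^ j * (B k).coeff t)) ∧
            (∀ i, ∃ j : ℕ, IsIntegral ℤ ((Δ : AlgebraicClosure K) ^ j * (F i).coeff t))) ∧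
          ∃ (Q : Finset (Fin d)) (G : MvPolynomial (Fin d) (AlgebraicClosure K)), G ≠ 0 ∧
          ∀ z : Fin d → AlgebraicClosure K, eval z G ≠ 0 →
          ∃ (p : Fin d → AlgebraicClosure K) (s : Fin n → AlgebraicClosure K),
            (∀ j, s j ^ ρ j + ∑ l ∈ Finset.range (ρ j), eval p (b j l) * s j ^ l = 0) ∧
            (∀ i ∈ Q, p i = z i) ∧ ∃ e : Fin m → ℕ, ∑ k, e k + Q.card = d + 1 ∧
            ∃ P : (k : Fin m) → Fin (g k) →
                (curve 0 (eval (Sum.elim p s) (A k)) (eval (Sum.elim p s) (B k))).Point,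
              (∀ k i, ∃ y h, P k i = WeierstrassCurve.Affine.Point.some
                (eval (Sum.elim p s) (F ⟨k, i⟩) + ∑ u : {u // u ∈ I}, if u.1.1 = ⟨k, i⟩ then
                  algebraMap K (AlgebraicClosure K) (∑ l, (x.2 u l : ℚ) • ω l) /
                    (x.1 : AlgebraicClosure K) *
                  ∏ t, Sum.elim p s t ^ (u.1.2 t) else 0) y h) ∧
              ∀ k, IntRel _ (e k) (P k) ∨ CMRel _ (e k) (P k)} : ℝ) ≤
        C * (H : ℝ) ^ (((Module.finrank ℚ K * I.card : ℕ) : ℝ) + ε) :=
  PKQ.all_FIQ K m g d n w D hD hK ω V W ρ b I hI hIs hb Δ hΔ ε hε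

end Pool.Agent.Results.MP_28d749_ag.AlmostAllProducts
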