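import Mathlib
import Pool.Agent.SRK.Defs
import Pool.Agent.PKD.Defs
import Pool.Agent.PKJ.All

/-!
Pink's conclusion for subgroups given by matrices over `ℤ[ζ]`, with the expected dimension for all
codimensions, for all but a power saving proportion of the multisections of products of fibre powers
of Jacobians of superelliptic curves of arbitrary genus, uniformly for all the families of curves.

The base `T` is the set of points `(p, s)` of affine space over `AlgebraicClosure K` where every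
`s_j` satisfies a monic equation over `p` (Noether coordinates). There are `g_k` points on the `k`-th
family of curves `Y ^ ℓ_k = X ^ M_k + ∑ κ, A_(k,κ) X ^ (M_k - 1 - κ)`, `k < m`, `ℓ_k` a prime number
which does not divide `M_k ≥ 2`, with abscissas
`F_(k,i) + ∑ α ∈ I, c_((k,i),α) (p, s) ^ α`. Here `A_(k,κ), F_(k,i)` are arbitrary polynomials in
`(p, s)` of degrees at most `(κ + 1) D, D` whose coefficients are algebraic numbers integral over
`ℤ[1/Δ]`, `I` is a set of exponents of monomials of degree at most `D` which contains `1` and all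
`p_j ^ D` (`al0 D ty` for `ty : Option (Fin d)`), and
`c_((k,i),α) = (∑ l, a_((k,i),α,l) ω_l) / β`, `ω` a basis of `K` over `ℚ`.

A pair `(β, a)` is bad if for SOME `A, F` as above, some set `Q` of coordinates and a dense open set
`G ≠ 0` of values `z` there is a point `(p, s)` of the base with `p_j = z_j` for `j ∈ Q` over which
the points satisfy `d + 1 - |Q|` independent relations, that is, `e_k` relations over `ℤ[ζ]`, `ζ` a
primitive `ℓ_k`-th root of unity, in the Jacobian of the `k`-th curve, which is smooth if `e_k ≠ 0`,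
with sum `d + 1 - |Q|` of the `e_k`. If a subvariety of dimension `q` of the multisection consists of
points which satisfy `d + 1 - q` independent relations then the pair is bad (`Q` a set of `q`
coordinates for which the projection of the subvariety is dominant).
-/

namespace Pool.Agent.Results.MP_28d749_ag.SuperellipticJacobians

open MvPolynomial PKD

theorem result (K : Type) [Field K] [NumberField K]
    (m : ℕ) (g ℓ M : Fin m → ℕ) (hℓ : ∀ k, (ℓ k).Prime) (hM : ∀ k, ¬ ℓ k ∣ M k)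
    (hM2 : ∀ k, 2 ≤ M k) (d n D : ℕ)
    (hK : ∀ e : Fin m → ℕ, (∀ k, e k ≤ g k) → ∑ k, e k ≤ d + 1 →
      ∑ k, (ℓ k - 1) * (e k * (g k - e k)) < Module.finrank ℚ K)
    (ω : Module.Basis (Fin (Module.finrank ℚ K)) ℚ K) (ρ : Fin n → ℕ)
    (b : Fin n → ℕ → MvPolynomial (Fin d) (AlgebraicClosure K))
    (I : Finset (MonS d n D)) (hI : ∀ ty, al0 D ty ∈ I)
    (hb : ∀ j l, l < ρ j → (b j l).totalDegree ≤ ρ j - l) (Δ : ℕ) (hΔ : 0 < Δ)
    (ε : ℝ) (hε : 0 < ε) :
    ∃ C : ℝ, ∀ H : ℕ, 1 ≤ H →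
      (Nat.card {x : ℕ × (((Σ k, Fin (g k)) × {α // α ∈ I}) → Fin (Module.finrank ℚ K) → ℤ) //
        1 ≤ x.1 ∧ x.1 ≤ H ∧ (∀ u l, |x.2 u l| ≤ (H : ℤ)) ∧
        ∃ (A : (k : Fin m) → Fin (M k) → MvPolynomial (Fin d ⊕ Fin n) (AlgebraicClosure K))
          (F : (Σ k, Fin (g k)) → MvPolynomial (Fin d ⊕ Fin n) (AlgebraicClosure K)),
          (∀ k (κ : Fin (M k)), (A k κ).totalDegree ≤ ((κ : ℕ) + 1) * D) ∧
          (∀ i, (F i).totalDegree ≤ D) ∧
          (∀ t, (∀ k κ, ∃ j : ℕ,
              IsIntegral ℤ ((Δ : AlgebraicClosure K) ^ j * (A k κ).coeff t)) ∧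
            (∀ i, ∃ j : ℕ, IsIntegral ℤ ((Δ : AlgebraicClosure K) ^ j * (F i).coeff t))) ∧
        ∃ (Q : Finset (Fin d)) (G : MvPolynomial (Fin d) (AlgebraicClosure K)), G ≠ 0 ∧
          ∀ z : Fin d → AlgebraicClosure K, eval z G ≠ 0 →
          ∃ (p : Fin d → AlgebraicClosure K) (s : Fin n → AlgebraicClosure K),
          (∀ j, s j ^ ρ j + ∑ l ∈ Finset.range (ρ j), eval p (b j l) * s j ^ l = 0) ∧
          (∀ i ∈ Q, p i = z i) ∧ ∃ e : Fin m → ℕ, ∑ k, e k + Q.card = d + 1 ∧
          ∀ k, e k ≠ 0 → Squarefree (SRK.fam fun κ => eval (Sum.elim p s) (A k κ)) ∧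
            ∃ (ζ : AlgebraicClosure K) (X Y : Fin (g k) → AlgebraicClosure K),
              IsPrimitiveRoot ζ (ℓ k) ∧
              (∀ i, X i = eval (Sum.elim p s) (F ⟨k, i⟩) + ∑ α : {α // α ∈ I},
                algebraMap K (AlgebraicClosure K) (∑ l, (x.2 (⟨k, i⟩, α) l : ℚ) • ω l) /
                  (x.1 : AlgebraicClosure K) * ∏ j, Sum.elim p s j ^ (α.1.1 j : ℕ)) ∧
              (∀ i, Y i ^ ℓ k = (SRK.fam fun κ => eval (Sum.elim p s) (A k κ)).eval (X i)) ∧
              SRK.Rel (ℓ k) (SRK.fam fun κ => eval (Sum.elim p s) (A k κ)) ζ X Y (e k)} : ℝ) ≤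
        C * (H : ℝ) ^ (((Module.finrank ℚ K * ((∑ k, g k) * I.card) : ℕ) : ℝ) + ε) :=
  PKJ.all_FIJ K m g ℓ M hℓ hM hM2 d n D hK ω ρ b I hI hb Δ hΔ ε hε

end Pool.Agent.Results.MP_28d749_ag.SuperellipticJacobians
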