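import Mathlib
import Pool.Agent.SRK.Defs
import Pool.Agent.SRK.All

/-!
Pink's conjecture for the fibre powers of the Jacobian of a superelliptic family
`Y ^ ℓ = f_t(X)` of arbitrary genus over an arbitrary affine base `T` of dimension `d`: the rank
over `ℤ[ζ_ℓ]` of multisections which are generic modulo a place above `ℓ`, in EVERY fibre.

The base is the set of points `(p, s)` of `K ^ d x K ^ e'` where every `s_j` satisfies a monic
equation over `p` (`OnBase`, integral Noether coordinates). The curve over the point `(p, s)` is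
`Y ^ ℓ = f(X)`, `f = X ^ m + ∑ A_κ(p, s) X ^ (m - 1 - κ)`, `m` prime to `ℓ`, of genus
`(ℓ - 1)(m - 1) / 2 ≥ 1` if `f` is squarefree. The sections `P_1, …, P_n` have the abscissas
`absc D F c p s i = F_i(p, s) + c_{i,0} + ∑ t, c_{i,t+1} p_t ^ D` with arbitrary functions `F_i` of
degree at most `D`.

`Rel ℓ f ζ x y e`: the points `(x_i, y_i)` satisfy `e` relations modulo torsion in the class group
of the affine curve (the Jacobian), with coefficients in `ℤ[ζ]`, which are linearly independent.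

The theorem: for all integral `c` with `v (Φ c) = 1`, all `e` and all sets `Q` of `d + 1 - e` of the
coordinates `p_1, …, p_d`, every dense open set `G ≠ 0` of values contains a value `z` of the
coordinates in `Q` so that at NO point of the base with these coordinates (and `f` squarefree) the
sections satisfy `e` independent relations. So the relation locus contains no subvariety of
dimension larger than `d - e`; in particular (`e = d + 1`, `Q` empty) it is empty for `e = d + 1`.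
-/

namespace Pool.Agent.Results.MP_28d749_ag.SuperellipticRank

open SRK

theorem result {K : Type*} [Field K] [CharZero K] [IsAlgClosed K] (v : AbsoluteValue K ℝ)
    (hna : IsNonarchimedean v) (ℓ : ℕ) (hℓ : ℓ.Prime) (hv : v (ℓ : K) < 1)
    (m : ℕ) (hm : ¬ ℓ ∣ m) (hg : 2 ≤ (ℓ - 1) * (m - 1)) (d e' μ D n : ℕ) (hD : μ < D)
    (ρ : Fin e' → ℕ) (b : Fin e' → ℕ → MvPolynomial (Fin d) K)
    (hb : ∀ j l, l < ρ j → (b j l).totalDegree ≤ ρ j - l ∧ ∀ t, v ((b j l).coeff t) ≤ 1)
    (A : Fin m → MvPolynomial (Fin d ⊕ Fin e') K) (F : Fin n → MvPolynomial (Fin d ⊕ Fin e') K)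
    (hA : ∀ κ : Fin m, (A κ).totalDegree ≤ ((κ : ℕ) + 1) * μ ∧ ∀ t, v ((A κ).coeff t) ≤ 1)
    (hF : ∀ i, (F i).totalDegree ≤ D ∧ ∀ t, v ((F i).coeff t) ≤ 1) :
    ∃ Φ : MvPolynomial (Fin n × Fin (d + 1)) K,
      (∀ t, v (Φ.coeff t) ≤ 1) ∧ (∃ t, v (Φ.coeff t) = 1) ∧
      (∃ c : Fin n × Fin (d + 1) → K, (∀ u, v (c u) ≤ 1) ∧ v (MvPolynomial.eval c Φ) = 1) ∧
      ∀ c : Fin n × Fin (d + 1) → K, (∀ u, v (c u) ≤ 1) → v (MvPolynomial.eval c Φ) = 1 →
      ∀ (e : ℕ) (Q : Finset (Fin d)), Q.card + e = d + 1 →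
      ∀ G : MvPolynomial Q K, G ≠ 0 → ∃ z : Q → K, MvPolynomial.eval z G ≠ 0 ∧
      ∀ (p : Fin d → K) (s : Fin e' → K), OnBase ρ b p s → (∀ t : Q, p t = z t) →
        Squarefree (fam fun κ => MvPolynomial.eval (Sum.elim p s) (A κ)) →
      ∀ (ζ : K) (y : Fin n → K), IsPrimitiveRoot ζ ℓ →
        (∀ i, y i ^ ℓ = (fam fun κ => MvPolynomial.eval (Sum.elim p s) (A κ)).eval
          (absc D F c p s i)) →
        ¬ Rel ℓ (fam fun κ => MvPolynomial.eval (Sum.elim p s) (A κ)) ζ (absc D F c p s) y e := by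
  obtain ⟨Φ, q1, q2, q3⟩ := all_FINS K v ℓ hna hℓ hv m hm hg d e' μ D n hD ρ b hb A F hA hF
  exact ⟨Φ, q1, q2, exists_unit_value v ℓ hna hℓ hv Φ q1 q2, q3⟩

end Pool.Agent.Results.MP_28d749_ag.SuperellipticRank
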