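import Mathlib
import Pool.Agent.PinkTw.XCurve

/-!
A counterexample to Pink's conjecture with group subschemes taken over the base `S` itself.

`A` is the fibre product over `S = P^1 minus {0, 1, ∞}` of the three quadratic twists
`y ^ 2 = x ^ 3 + δ ^ 2 x + δ ^ 3`, `δ = t, 1 - t, t (1 - t)`, of `y ^ 2 = x ^ 3 + x + 1`; `X` is
the curve of the points `(t; (0, u ^ 3), (0, v ^ 3), (0, (u v) ^ 3))` with `u ^ 2 = t` and
`v ^ 2 = 1 - t`.
-/

namespace Pool.Agent.Results.MP_28d749_ag.TwistedMultisection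

open PinkTw

theorem result (k : Type*) [Field k] [IsAlgClosed k] [CharZero k] [DecidableEq k] :
    (∀ (t : Base k) (i : Fin 3), (W (tw t i)).IsElliptic) ∧
    (∀ t : Base k, 3 ≤ topologicalKrullDim (fibre t)) ∧
    IsClosed (X k) ∧ IsIrreducible (X k) ∧ topologicalKrullDim (X k) = 1 ∧
    (∀ G : Set (Tot k), IsGroupSubscheme G → X k ⊆ G → G = Set.univ) ∧
    X k ⊆ exceptional k 1 :=
  ⟨fun t i => W_isElliptic (tw_ne t i), three_le_dim, isClosed_X, X_irreducible, X_dim,
    group_eq_univ, X_subset⟩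

end Pool.Agent.Results.MP_28d749_ag.TwistedMultisection
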